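import Pool.Agent.helper20.DP.H01

/-!
# HAS: two infinite arms in every time window
-/

namespace DP

open MeasureTheory ProbabilityTheory Filter Topology

theorem HAS_mono (m N : ℕ) {a b b' : ℝ} (h : b' ≤ b) : Hit m N a b' ⊆ Hit m N a b := by
  rintro X ⟨q, h1, h2, h3⟩
  exact ⟨q, h1, h2.trans h, h3⟩

theorem HAS_anti (hTW : HTW_stmt) (m : ℕ) (a b : ℝ) {N N' : ℕ} (hm : m ≤ N) (h : N ≤ N') :
    Hit m N' a b ⊆ Hit m N a b := by
  rintro X ⟨q, h1, h2, h3⟩
  exact ⟨q, h1, h2, hTW _ _ _ _ _ _ le_rfl hm h h3⟩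

/-- HAS. -/
theorem HAS (hIT : HIT_stmt) (h01 : H01_stmt) (hTW : HTW_stmt) (hMS : HMS_stmt) : HAS_stmt := by
  intro a b ha hab
  obtain ⟨m, -, hm⟩ := hIT
  set b' : ℝ := min b (a + 1) with hb'
  have hab' : a < b' := lt_min hab (by linarith)
  obtain ⟨c, hc, hN⟩ := hm a b' ha hab' (min_le_right _ _)
  have hmeas : ∀ N : ℕ, MeasurableSet (Hit m N a b') := fun N =>
    H01_hit hMS inferInstance m N a b' fun v _ => measurable_pi_apply v
  have hanti : Antitone fun N : ℕ => Hit m (m + 1 + N) a b' := by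
    intro N N' hNN'
    exact HAS_anti hTW m a b' (by omega) (by omega)
  have hlim : Tendsto (fun N : ℕ => PV (Hit m (m + 1 + N) a b')) atTop
      (𝓝 (PV (⋂ N : ℕ, Hit m (m + 1 + N) a b'))) :=
    tendsto_measure_iInter_atTop (fun N => (hmeas _).nullMeasurableSet) hanti
      ⟨0, measure_ne_top _ _⟩
  have hge : ENNReal.ofReal c ≤ PV (⋂ N : ℕ, Hit m (m + 1 + N) a b') := by
    refine ge_of_tendsto' hlim fun N => ?_
    rw [← ENNReal.ofReal_toReal (measure_ne_top PV (Hit m (m + 1 + N) a b'))]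
    exact ENNReal.ofReal_le_ofReal (hN (m + 1 + N) (by omega))
  have hsub : (⋂ N : ℕ, Hit m (m + 1 + N) a b') ⊆ InfHit a b' := by
    intro X hX
    refine ⟨m, fun N hmN => ?_⟩
    have h := Set.mem_iInter.1 hX (N - (m + 1))
    rwa [show m + 1 + (N - (m + 1)) = N by omega] at h
  have hpos : 0 < PV (InfHit a b') :=
    lt_of_lt_of_le (ENNReal.ofReal_pos.2 hc) (hge.trans (measure_mono hsub))
  have h1 : PV (InfHit a b') = 1 := by
    rcases (h01 a b').2 with h | h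
    · exact absurd h hpos.ne'
    · exact h
  have hae : ∀ᵐ X ∂PV, X ∈ InfHit a b' := by
    rw [← mem_ae_iff_prob_eq_one (h01 a b').1] at h1
    exact h1
  filter_upwards [hae] with X hX
  obtain ⟨m₀, h⟩ := hX
  exact ⟨m₀, fun N hN => HAS_mono m₀ N (min_le_left _ _) (h N hN)⟩

end DP
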