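import Pool.Agent.helper95.DP.SpecH

/-!
# HAT: ring times have no atoms
-/

namespace DP

open MeasureTheory ProbabilityTheory

theorem HAT_map_update (v : ℕ) :
    ((expMeasure 1).prod nuT).map (fun p : ℝ × (ℕ → ℝ) => Function.update p.2 v p.1) = nuT := by
  have hm : Measurable fun p : ℝ × (ℕ → ℝ) => Function.update p.2 v p.1 := by
    rw [measurable_pi_iff]
    intro u
    by_cases h : u = v
    · subst h
      simpa using measurable_fst
    · simp only [Function.update_of_ne h]
      exact (measurable_pi_apply u).comp measurable_snd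
  unfold nuT
  refine Measure.eq_infinitePi _ fun s t ht => ?_
  rw [Measure.map_apply hm (MeasurableSet.pi s.countable_toSet fun i _ => ht i)]
  have h1 : (fun p : ℝ × (ℕ → ℝ) => Function.update p.2 v p.1) ⁻¹' (Set.pi (s : Set ℕ) t) =
      (if v ∈ s then t v else Set.univ) ×ˢ (Set.pi ((s.erase v : Finset ℕ) : Set ℕ) t) := by
    ext p
    simp only [Set.mem_preimage, Set.mem_pi, Set.mem_prod, Finset.mem_coe, Finset.mem_erase]
    constructor
    · intro h
      refine ⟨?_, fun i hi => ?_⟩
      · split_ifs with hv
        · simpa using h v hv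
        · trivial
      · simpa [Function.update_of_ne hi.1] using h i hi.2
    · rintro ⟨h2, h3⟩ i hi
      by_cases hiv : i = v
      · subst hiv
        rw [if_pos hi] at h2
        simpa using h2
      · rw [Function.update_of_ne hiv]
        exact h3 i ⟨hiv, hi⟩
  rw [h1, Measure.prod_prod, Measure.infinitePi_pi (fun _ : ℕ => expMeasure 1) (fun i _ => ht i)]
  by_cases hv : v ∈ s
  · rw [if_pos hv, Finset.mul_prod_erase s (fun i => (expMeasure 1) (t i)) hv]
  · rw [if_neg hv, Finset.erase_eq_of_notMem hv, measure_univ, one_mul]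

theorem HAT_atom (c : ℝ) : (expMeasure 1) {c} = 0 := by
  have h : expMeasure 1 = (volume : Measure ℝ).withDensity (gammaPDF 1 1) := rfl
  rw [h]
  exact withDensity_absolutelyContinuous _ _ (by simp)

theorem HAT : HAT_stmt := by
  intro k c
  have hm0 : Measurable fun x : ℕ → ℝ => rt x (k + 1) := by
    unfold rt
    exact Finset.measurable_sum _ fun i _ => measurable_pi_apply i
  have hm : Measurable fun p : ℝ × (ℕ → ℝ) => Function.update p.2 0 p.1 := by
    rw [measurable_pi_iff]
    intro u
    by_cases h : u = 0
    · subst h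
      simpa using measurable_fst
    · simp only [Function.update_of_ne h]
      exact (measurable_pi_apply u).comp measurable_snd
  have hS : MeasurableSet {x : ℕ → ℝ | rt x (k + 1) = c} := hm0 (measurableSet_singleton c)
  rw [← HAT_map_update 0, Measure.map_apply hm hS, Measure.prod_apply_symm (hm hS)]
  refine (lintegral_eq_zero_iff (measurable_measure_prodMk_right (hm hS))).2 ?_
  refine Filter.Eventually.of_forall fun x => ?_
  have h2 : (fun a : ℝ => (a, x)) ⁻¹' ((fun p : ℝ × (ℕ → ℝ) => Function.update p.2 0 p.1) ⁻¹'
      {x : ℕ → ℝ | rt x (k + 1) = c}) ⊆ {c - ∑ i ∈ Finset.range k, x (i + 1)} := by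
    intro a ha
    simp only [Set.mem_preimage, Set.mem_ofPred_eq, rt, Finset.sum_range_succ'] at ha
    simp only [Function.update_self, Function.update_of_ne (Nat.succ_ne_zero _)] at ha
    rw [Set.mem_singleton_iff]
    linarith
  exact measure_mono_null h2 (HAT_atom _)

end DP
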